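import Pool.Agent.R749.IC.Main

/-!
# MP_f8852a_lc: strong computable type and infinitely many components

Answer to Q1: yes.  There is a compact metrizable space of strong computable type which has
infinitely many connected components.
-/

namespace Pool.Agent.Results.MP_f8852a_lc.InfinitelyManyComponents

theorem result : ∃ (X : Type) (_ : TopologicalSpace X), CompactSpace X ∧
    TopologicalSpace.MetrizableSpace X ∧ R749IC.StrongComputableType X ∧
    Infinite (ConnectedComponents X) :=
  R749IC.main

end Pool.Agent.Results.MP_f8852a_lc.InfinitelyManyComponents
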